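import Mathlib

-- merged part: Pool.Agent.Work.MP_1001d8_an.Diag
section
-- merged part: Pool.Agent.Work.MP_1001d8_an.Space
section
open Finset Real Filter
open scoped Topology

namespace Pool.Agent.Work.MP_1001d8_an

/-- the seminorm at scale `k` -/
noncomputable def r (k : ℕ) (v : ℝ × ℝ) : ℝ := |v.2| + |v.1 + log k * v.2|

lemma r_nonneg (k : ℕ) (v : ℝ × ℝ) : 0 ≤ r k v := by unfold r; positivity

@[simp] lemma r_zero (k : ℕ) : r k 0 = 0 := by simp [r]

lemma r_add (k : ℕ) (v w : ℝ × ℝ) : r k (v + w) ≤ r k v + r k w := by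
  unfold r
  have a := abs_add_le v.2 w.2
  have b := abs_add_le (v.1 + log k * v.2) (w.1 + log k * w.2)
  simp only [Prod.fst_add, Prod.snd_add]
  rw [show v.1 + w.1 + log k * (v.2 + w.2) = v.1 + log k * v.2 + (w.1 + log k * w.2) by ring]
  linarith

lemma r_smul (k : ℕ) (c : ℝ) (v : ℝ × ℝ) : r k (c • v) = |c| * r k v := by
  unfold r
  simp only [Prod.smul_fst, Prod.smul_snd, smul_eq_mul]
  rw [show c * v.1 + log k * (c * v.2) = c * (v.1 + log k * v.2) by ring, abs_mul, abs_mul]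
  ring

lemma r_sum {ι : Type*} (k : ℕ) (B : Finset ι) (v : ι → ℝ × ℝ) :
    r k (∑ j ∈ B, v j) ≤ ∑ j ∈ B, r k (v j) :=
  Finset.le_sum_of_subadditive (r k) (r_zero k).le (r_add k) B v

lemma continuous_r (k : ℕ) : Continuous (r k) := by unfold r; fun_prop

/-- the average over a finite set -/
noncomputable def ρ (A : Finset ℕ) (z : ℕ → ℝ × ℝ) : ℝ := (∑ i ∈ A, r A.card (z i)) / √A.card

lemma ρ_nonneg (A : Finset ℕ) (z : ℕ → ℝ × ℝ) : 0 ≤ ρ A z :=
  div_nonneg (sum_nonneg fun _ _ => r_nonneg _ _) (sqrt_nonneg _)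

lemma ρ_mono (A : Finset ℕ) {z w : ℕ → ℝ × ℝ} (h : ∀ k i, r k (z i) ≤ r k (w i)) :
    ρ A z ≤ ρ A w :=
  div_le_div_of_nonneg_right (sum_le_sum fun i _ => h _ i) (sqrt_nonneg _)

lemma ρ_add (A : Finset ℕ) (z w : ℕ → ℝ × ℝ) : ρ A (z + w) ≤ ρ A z + ρ A w := by
  unfold ρ
  rw [← add_div, ← sum_add_distrib]
  exact div_le_div_of_nonneg_right (sum_le_sum fun i _ => r_add _ _ _) (sqrt_nonneg _)

lemma ρ_smul (A : Finset ℕ) (c : ℝ) (z : ℕ → ℝ × ℝ) : ρ A (c • z) = |c| * ρ A z := by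
  unfold ρ
  simp only [Pi.smul_apply, r_smul]
  rw [← mul_sum, mul_div_assoc]

@[simp] lemma ρ_zero (A : Finset ℕ) : ρ A 0 = 0 := by simp [ρ]

lemma log_le_sqrt (t : ℝ) (ht : 0 < t) : log t ≤ 2 * √t := by
  have h := log_le_sub_one_of_pos (sqrt_pos.2 ht)
  rw [log_sqrt ht.le] at h
  linarith only [h]

lemma one_add_log_le (k : ℕ) (hk : 0 < k) : 1 + log k ≤ 3 * √k := by
  have h1 : (1 : ℝ) ≤ k := by exact_mod_cast hk
  have := log_le_sqrt k (by linarith)
  have := one_le_sqrt.2 h1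
  linarith

lemma r_le (k : ℕ) (hk : 0 < k) (v : ℝ × ℝ) : r k v ≤ 3 * (|v.1| + |v.2|) * √k := by
  unfold r
  have h1 : (1 : ℝ) ≤ k := by exact_mod_cast hk
  have a := one_add_log_le k hk
  have b := one_le_sqrt.2 h1
  have c := abs_add_le v.1 (log k * v.2)
  rw [abs_mul, abs_of_nonneg (log_nonneg h1)] at c
  linarith only [c, a, b, abs_nonneg v.1, abs_nonneg v.2, mul_nonneg_of_nonpos_of_nonpos (Mathlib.Tactic.Linarith.sub_nonpos_of_le a) (Mathlib.Tactic.Linarith.sub_nonpos_of_le (abs_nonneg v.2)), mul_nonneg_of_nonpos_of_nonpos (Mathlib.Tactic.Linarith.sub_nonpos_of_le b) (Mathlib.Tactic.Linarith.sub_nonpos_of_le (abs_nonneg v.1))]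

/-- the tail of a sequence -/
def tail (m : ℕ) (z : ℕ → ℝ × ℝ) : ℕ → ℝ × ℝ := fun i => if m ≤ i then z i else 0

lemma ρ_le_head (A : Finset ℕ) (m : ℕ) (z : ℕ → ℝ × ℝ) :
    ρ A z ≤ ∑ i ∈ range m, 3 * (|(z i).1| + |(z i).2|) + ρ A (tail m z) := by
  rcases A.eq_empty_or_nonempty with rfl | hA
  · simp only [ρ, sum_empty, zero_div, add_zero]; positivity
  have hk : 0 < A.card := card_pos.2 hA
  have hs : 0 < √(A.card : ℝ) := sqrt_pos.2 (by exact_mod_cast hk)
  unfold ρ
  rw [div_le_iff₀ hs, add_mul, div_mul_cancel₀ _ hs.ne', sum_mul]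
  calc ∑ i ∈ A, r A.card (z i)
      ≤ ∑ i ∈ A, ((if i ∈ range m then 3 * (|(z i).1| + |(z i).2|) * √A.card else 0) +
        r A.card (tail m z i)) := by
        refine sum_le_sum fun i _ => ?_
        unfold tail
        by_cases h : m ≤ i
        · simp [h, not_lt.2 h]
        · simp only [mem_range, not_le.1 h, if_true, h, if_false, r_zero, add_zero]
          exact r_le _ hk _
    _ ≤ _ := by
        rw [sum_add_distrib, ← sum_filter]
        gcongr with i
        intro i hi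
        exact (mem_filter.1 hi).2

/-- the twisted sequence space, as a submodule -/
def twSub : Submodule ℝ (ℕ → ℝ × ℝ) where
  carrier := {z | ∀ ε > 0, ∃ m, ∀ A, ρ A (tail m z) ≤ ε}
  add_mem' := by
    intro z w hz hw ε hε
    obtain ⟨m, hm⟩ := hz (ε / 2) (by linarith)
    obtain ⟨n, hn⟩ := hw (ε / 2) (by linarith)
    refine ⟨max m n, fun A => ?_⟩
    have e : tail (max m n) (z + w) = tail (max m n) z + tail (max m n) w := by
      ext1 i; simp only [tail, Pi.add_apply]; split_ifs <;> simp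
    have mono : ∀ (a : ℕ) (u : ℕ → ℝ × ℝ), a ≤ max m n → ρ A (tail (max m n) u) ≤ ρ A (tail a u) :=
      fun a u ha => ρ_mono A fun k i => by
        simp only [tail]
        split_ifs with h1 h2 h2
        · exact le_rfl
        · exact absurd (ha.trans h1) h2
        · simpa using r_nonneg _ _
        · exact le_rfl
    rw [e]
    linarith [ρ_add A (tail (max m n) z) (tail (max m n) w), mono m z (le_max_left _ _),
      mono n w (le_max_right _ _), hm A, hn A]
  zero_mem' := fun ε hε => ⟨0, fun A => by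
    have : tail 0 0 = 0 := by ext1 i; simp [tail]
    rw [this, ρ_zero]; exact hε.le⟩
  smul_mem' := by
    intro c z hz ε hε
    obtain ⟨m, hm⟩ := hz (ε / (|c| + 1)) (by positivity)
    refine ⟨m, fun A => ?_⟩
    have e : tail m (c • z) = c • tail m z := by
      ext1 i; simp only [tail, Pi.smul_apply]; split_ifs <;> simp
    rw [e, ρ_smul]
    have h := hm A
    rw [le_div_iff₀ (by positivity)] at h
    nlinarith [ρ_nonneg A (tail m z), abs_nonneg c]

/-- the twisted sequence space -/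
def TW : Type := twSub

noncomputable instance : AddCommGroup TW := inferInstanceAs (AddCommGroup twSub)
noncomputable instance : Module ℝ TW := inferInstanceAs (Module ℝ twSub)

/-- the underlying sequence -/
def TW.val (z : TW) : ℕ → ℝ × ℝ := (show twSub from z).1

/-- constructor -/
def TW.mk (z : ℕ → ℝ × ℝ) (h : ∀ ε > 0, ∃ m, ∀ A, ρ A (tail m z) ≤ ε) : TW :=
  (⟨z, h⟩ : twSub)

@[simp] lemma TW.val_mk (z : ℕ → ℝ × ℝ) (h) : (TW.mk z h).val = z := rfl
@[simp] lemma TW.val_add (z w : TW) : (z + w).val = z.val + w.val := rfl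
@[simp] lemma TW.val_sub (z w : TW) : (z - w).val = z.val - w.val := rfl
@[simp] lemma TW.val_smul (c : ℝ) (z : TW) : (c • z).val = c • z.val := rfl
@[simp] lemma TW.val_zero : (0 : TW).val = 0 := rfl
@[simp] lemma TW.val_neg (z : TW) : (-z).val = -z.val := rfl

@[ext] lemma TW.ext {z w : TW} (h : z.val = w.val) : z = w := Subtype.ext h

lemma TW.val_sum {ι : Type*} (B : Finset ι) (z : ι → TW) :
    (∑ j ∈ B, z j).val = ∑ j ∈ B, (z j).val := by
  classical
  induction B using Finset.induction_on with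
  | empty => simp
  | insert a s ha ih => simp [sum_insert ha, ih]

lemma TW.prop (z : TW) : ∀ ε > 0, ∃ m, ∀ A, ρ A (tail m z.val) ≤ ε := (show twSub from z).2

lemma TW.bdd (z : TW) : BddAbove (Set.range fun A => ρ A z.val) := by
  obtain ⟨m, hm⟩ := z.prop 1 one_pos
  refine ⟨∑ i ∈ range m, 3 * (|(z.val i).1| + |(z.val i).2|) + 1, ?_⟩
  rintro _ ⟨A, rfl⟩
  linarith [ρ_le_head A m z.val, hm A]

noncomputable instance : Norm TW := ⟨fun z => ⨆ A, ρ A z.val⟩

lemma ρ_le_norm (A : Finset ℕ) (z : TW) : ρ A z.val ≤ ‖z‖ := le_ciSup z.bdd A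

lemma norm_le {z : TW} {C : ℝ} (h : ∀ A, ρ A z.val ≤ C) : ‖z‖ ≤ C := ciSup_le h

lemma coord_le (z : TW) (i : ℕ) : |(z.val i).1| + |(z.val i).2| ≤ ‖z‖ := by
  have := ρ_le_norm {i} z
  simpa [ρ, r, add_comm] using this

lemma core : NormedSpace.Core ℝ TW where
  norm_nonneg z := (ρ_nonneg ∅ _).trans (ρ_le_norm ∅ z)
  norm_smul c z := by
    show (⨆ A, ρ A (c • z.val)) = ‖c‖ * ⨆ A, ρ A z.val
    simp only [ρ_smul]
    rw [Real.mul_iSup_of_nonneg (norm_nonneg c), Real.norm_eq_abs]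
  norm_triangle z w := norm_le fun A =>
    (ρ_add A _ _).trans (add_le_add (ρ_le_norm A z) (ρ_le_norm A w))
  norm_eq_zero_iff z := by
    constructor
    · intro h
      ext1; ext1 i
      have := coord_le z i
      rw [h] at this
      have a := abs_nonneg (z.val i).1
      have b := abs_nonneg (z.val i).2
      exact Prod.ext (abs_eq_zero.1 (by linarith)) (abs_eq_zero.1 (by linarith))
    · rintro rfl
      show (⨆ A, ρ A 0) = 0
      simp

noncomputable instance : NormedAddCommGroup TW := NormedAddCommGroup.ofCore core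
noncomputable instance : NormedSpace ℝ TW := NormedSpace.ofCore core

lemma norm_coord_le (z : TW) (i : ℕ) : ‖z.val i‖ ≤ ‖z‖ := by
  have := coord_le z i
  rw [Prod.norm_def]
  exact max_le (by simp only [Real.norm_eq_abs]; linarith [abs_nonneg (z.val i).2])
    (by simp only [Real.norm_eq_abs]; linarith [abs_nonneg (z.val i).1])

instance : CompleteSpace TW := by
  refine Metric.complete_of_cauchySeq_tendsto fun u hu => ?_
  have hc : ∀ i, CauchySeq fun n => (u n).val i := by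
    intro i
    rw [Metric.cauchySeq_iff] at hu ⊢
    intro ε hε
    obtain ⟨N, hN⟩ := hu ε hε
    refine ⟨N, fun m hm n hn => lt_of_le_of_lt ?_ (hN m hm n hn)⟩
    rw [dist_eq_norm, dist_eq_norm]
    exact norm_coord_le (u m - u n) i
  choose z hz using fun i => cauchySeq_tendsto_of_complete (hc i)
  have key : ∀ ε > 0, ∃ N, ∀ n ≥ N, ∀ A, ρ A (z - (u n).val) ≤ ε := by
    intro ε hε
    obtain ⟨N, hN⟩ := Metric.cauchySeq_iff.1 hu ε hε
    refine ⟨N, fun n hn A => ?_⟩
    have t : Tendsto (fun m => ρ A ((u m).val - (u n).val)) atTop (𝓝 (ρ A (z - (u n).val))) := by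
      unfold ρ
      refine Tendsto.div_const (tendsto_finsetSum _ fun i _ => ?_) _
      exact ((continuous_r _).tendsto _).comp ((hz i).sub_const _)
    refine le_of_tendsto t (eventually_atTop.2 ⟨N, fun m hm => ?_⟩)
    have := hN m hm n hn
    rw [dist_eq_norm] at this
    exact (ρ_le_norm A (u m - u n)).trans this.le
  have hmem : ∀ ε > 0, ∃ m, ∀ A, ρ A (tail m z) ≤ ε := by
    intro ε hε
    obtain ⟨N, hN⟩ := key (ε / 2) (by linarith)
    obtain ⟨m, hm⟩ := (u N).prop (ε / 2) (by linarith)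
    refine ⟨m, fun A => ?_⟩
    have e : tail m z = tail m (z - (u N).val) + tail m (u N).val := by
      ext1 i; simp only [tail, Pi.add_apply, Pi.sub_apply]; split_ifs <;> simp
    have h1 : ρ A (tail m (z - (u N).val)) ≤ ρ A (z - (u N).val) := ρ_mono A fun k i => by
      simp only [tail]; split_ifs
      · exact le_rfl
      · simpa using r_nonneg _ _
    rw [e]
    linarith [ρ_add A (tail m (z - (u N).val)) (tail m (u N).val), hN N le_rfl A, hm A]
  refine ⟨TW.mk z hmem, Metric.tendsto_atTop.2 fun ε hε => ?_⟩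
  obtain ⟨N, hN⟩ := key (ε / 2) (by linarith)
  refine ⟨N, fun n hn => ?_⟩
  rw [dist_comm, dist_eq_norm]
  exact lt_of_le_of_lt (norm_le (hN n hn)) (by linarith)

lemma sum_r_le (z : TW) (A : Finset ℕ) (k : ℕ) (hk : A.card ≤ k) :
    ∑ i ∈ A, r k (z.val i) ≤ √k * ‖z‖ := by
  obtain ⟨B, hAB, hB⟩ := Infinite.exists_superset_card_eq A k hk
  have h := ρ_le_norm B z
  unfold ρ at h
  rw [hB] at h
  rcases Nat.eq_zero_or_pos k with h0 | h0
  · have : A = ∅ := card_eq_zero.1 (by omega)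
    simp [this, h0]
  · rw [div_le_iff₀ (sqrt_pos.2 (by exact_mod_cast h0)), mul_comm] at h
    exact (sum_le_sum_of_subset_of_nonneg hAB fun i _ _ => r_nonneg _ _).trans h

end Pool.Agent.Work.MP_1001d8_an
end

-- merged part: Pool.Agent.Work.MP_1001d8_an.Ops
section
open Finset Real Filter
open scoped Topology

namespace Pool.Agent.Work.MP_1001d8_an

lemma sum_r_le' (w : ℕ → ℝ × ℝ) (C : ℝ) (hC : ∀ A, ρ A w ≤ C) (A : Finset ℕ) (k : ℕ)
    (hk : A.card ≤ k) : ∑ i ∈ A, r k (w i) ≤ √k * C := by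
  obtain ⟨B, hAB, hB⟩ := Infinite.exists_superset_card_eq A k hk
  have h := hC B
  unfold ρ at h
  rw [hB] at h
  rcases Nat.eq_zero_or_pos k with h0 | h0
  · have : A = ∅ := card_eq_zero.1 (by omega)
    simp [this, h0]
  · rw [div_le_iff₀ (sqrt_pos.2 (by exact_mod_cast h0)), mul_comm] at h
    exact (sum_le_sum_of_subset_of_nonneg hAB fun i _ _ => r_nonneg _ _).trans h

/-- build a contraction from a linear map on sequences -/
noncomputable def mkOp (L : (ℕ → ℝ × ℝ) →ₗ[ℝ] (ℕ → ℝ × ℝ))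
    (h1 : ∀ w C, (∀ A, ρ A w ≤ C) → ∀ A, ρ A (L w) ≤ C)
    (h2 : ∀ m, ∃ m', ∀ w A, ρ A (tail m' (L w)) ≤ ρ A (L (tail m w))) : TW →L[ℝ] TW :=
  LinearMap.mkContinuous
    { toFun := fun z => TW.mk (L z.val) fun ε hε => by
        obtain ⟨m, hm⟩ := z.prop ε hε
        obtain ⟨m', hm'⟩ := h2 m
        exact ⟨m', fun A => (hm' _ A).trans (h1 _ _ hm A)⟩
      map_add' := fun z w => TW.ext (by simp)
      map_smul' := fun c z => TW.ext (by simp) } 1
    fun z => by
      rw [one_mul]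
      exact norm_le (h1 _ _ fun A => ρ_le_norm A z)

lemma mkOp_val (L h1 h2) (z : TW) : (mkOp L h1 h2 z).val = L z.val := rfl

lemma mkOp_le (L h1 h2) (z : TW) : ‖mkOp L h1 h2 z‖ ≤ ‖z‖ :=
  norm_le (h1 _ _ fun A => ρ_le_norm A z)

open Classical in
/-- coordinate projection -/
noncomputable def proj (I : Set ℕ) : TW →L[ℝ] TW :=
  mkOp
    { toFun := fun w i => if i ∈ I then w i else 0
      map_add' := fun z w => by ext1 i; simp only [Pi.add_apply]; split_ifs <;> simp
      map_smul' := fun c z => by ext1 i; simp only [Pi.smul_apply]; split_ifs <;> simp }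
    (fun w C h A => (ρ_mono A fun k i => by
      simp only [LinearMap.coe_mk, AddHom.coe_mk]
      split_ifs
      · exact le_rfl
      · simpa using r_nonneg _ _).trans (h A))
    (fun m => ⟨m, fun w A => le_of_eq (by
      congr 1; ext1 i
      simp only [tail, LinearMap.coe_mk, AddHom.coe_mk]
      split_ifs <;> rfl)⟩)

open Classical in
lemma proj_val (I : Set ℕ) (z : TW) (i : ℕ) :
    (proj I z).val i = if i ∈ I then z.val i else 0 := rfl

lemma proj_le (I : Set ℕ) (z : TW) : ‖proj I z‖ ≤ ‖z‖ := mkOp_le _ _ _ z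

/-- the nilpotent operator -/
noncomputable def Sop : TW →L[ℝ] TW :=
  mkOp
    { toFun := fun w i => ((w i).2, 0)
      map_add' := fun z w => by ext1 i; simp
      map_smul' := fun c z => by ext1 i; simp }
    (fun w C h A => (ρ_mono A fun k i => by
      simp only [LinearMap.coe_mk, AddHom.coe_mk, r]
      simp).trans (h A))
    (fun m => ⟨m, fun w A => le_of_eq (by
      congr 1; ext1 i
      simp only [tail, LinearMap.coe_mk, AddHom.coe_mk]
      split_ifs <;> rfl)⟩)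

lemma Sop_val (z : TW) (i : ℕ) : (Sop z).val i = ((z.val i).2, 0) := rfl

lemma Sop_le (z : TW) : ‖Sop z‖ ≤ ‖z‖ := mkOp_le _ _ _ z

lemma Sop_Sop (z : TW) : Sop (Sop z) = 0 := by
  ext1; ext1 i; simp [Sop_val]

/-- restriction to a subsequence -/
noncomputable def Uop (φ : ℕ → ℕ) (hφ : StrictMono φ) : TW →L[ℝ] TW :=
  mkOp (LinearMap.funLeft ℝ (ℝ × ℝ) φ)
    (fun w C h A => by
      have := h (A.map ⟨φ, hφ.injective⟩)
      unfold ρ at this ⊢
      rwa [card_map, sum_map] at this)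
    (fun m => ⟨m, fun w A => ρ_mono A fun k i => by
      simp only [tail, LinearMap.funLeft_apply]
      split_ifs with h1 h2 h2
      · exact le_rfl
      · exact absurd (h1.trans (hφ.id_le i)) h2
      · simpa using r_nonneg _ _
      · exact le_rfl⟩)

lemma Uop_val (φ : ℕ → ℕ) (hφ : StrictMono φ) (z : TW) (i : ℕ) :
    (Uop φ hφ z).val i = z.val (φ i) := rfl

lemma Uop_le (φ : ℕ → ℕ) (hφ : StrictMono φ) (z : TW) : ‖Uop φ hφ z‖ ≤ ‖z‖ := mkOp_le _ _ _ z

open Classical in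
/-- spreading along a subsequence -/
noncomputable def Vop (φ : ℕ → ℕ) (hφ : StrictMono φ) : TW →L[ℝ] TW :=
  mkOp
    { toFun := fun w => Function.extend φ w 0
      map_add' := fun z w => by
        ext1 i; simp only [Pi.add_apply, Function.extend_def]; split_ifs <;> simp
      map_smul' := fun c z => by
        ext1 i; simp only [Pi.smul_apply, Function.extend_def]; split_ifs <;> simp }
    (fun w C h A => by
      have h0 : 0 ≤ C := by simpa [ρ] using h ∅
      simp only [LinearMap.coe_mk, AddHom.coe_mk]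
      unfold ρ
      refine div_le_of_le_mul₀ (sqrt_nonneg _) h0 ?_
      rw [mul_comm]
      have hc : (A.preimage φ hφ.injective.injOn).card ≤ A.card :=
        card_le_card_of_injOn φ (fun x hx => by simpa using hx) hφ.injective.injOn
      refine le_trans (le_of_eq ?_) (sum_r_le' w C h _ _ hc)
      rw [← sum_preimage φ A hφ.injective.injOn]
      · simp [hφ.injective.extend_apply]
      · intro i _ hi
        rw [Function.extend_apply' _ _ _ hi]; simp)
    (fun m => ⟨φ m, fun w A => le_of_eq (by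
      congr 1; ext1 i
      simp only [LinearMap.coe_mk, AddHom.coe_mk]
      by_cases hi : ∃ a, φ a = i
      · obtain ⟨a, rfl⟩ := hi
        simp [tail, hφ.injective.extend_apply, hφ.le_iff_le]
      · simp [tail, Function.extend_apply' _ _ _ hi])⟩)

lemma Vop_val (φ : ℕ → ℕ) (hφ : StrictMono φ) (z : TW) :
    (Vop φ hφ z).val = Function.extend φ z.val 0 := rfl

lemma Vop_le (φ : ℕ → ℕ) (hφ : StrictMono φ) (z : TW) : ‖Vop φ hφ z‖ ≤ ‖z‖ := mkOp_le _ _ _ z

lemma Uop_Vop (φ : ℕ → ℕ) (hφ : StrictMono φ) (z : TW) : Uop φ hφ (Vop φ hφ z) = z := by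
  ext1; ext1 i
  rw [Uop_val, Vop_val, hφ.injective.extend_apply]

lemma Sop_Vop (φ : ℕ → ℕ) (hφ : StrictMono φ) (z : TW) :
    Sop (Vop φ hφ z) = Vop φ hφ (Sop z) := by
  ext1; ext1 i
  rw [Sop_val, Vop_val, Vop_val]
  by_cases hi : ∃ a, φ a = i
  · obtain ⟨a, rfl⟩ := hi
    simp [hφ.injective.extend_apply, Sop_val]
  · simp [Function.extend_apply' _ _ _ hi]

/-- a vector supported at one coordinate -/
noncomputable def sing (i : ℕ) (v : ℝ × ℝ) : TW :=
  TW.mk (Pi.single i v) fun ε hε => ⟨i + 1, fun A => by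
    have : tail (i + 1) (Pi.single i v) = 0 := by
      ext1 j
      simp only [tail, Pi.zero_apply]
      split_ifs with h
      · exact Pi.single_eq_of_ne (by omega) _
      · rfl
    rw [this, ρ_zero]; exact hε.le⟩

lemma sing_val (i : ℕ) (v : ℝ × ℝ) : (sing i v).val = Pi.single i v := rfl

lemma sing_add (i : ℕ) (v w : ℝ × ℝ) : sing i (v + w) = sing i v + sing i w := by
  ext1; simp [sing_val, Pi.single_add]

lemma sing_smul (i : ℕ) (c : ℝ) (v : ℝ × ℝ) : sing i (c • v) = c • sing i v := by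
  ext1; simp [sing_val, Pi.single_smul]

lemma sing_sub (i : ℕ) (v w : ℝ × ℝ) : sing i (v - w) = sing i v - sing i w := by
  ext1; simp [sing_val, Pi.single_sub]

lemma sing_eq (i : ℕ) (v : ℝ × ℝ) : sing i v = v.1 • sing i (1, 0) + v.2 • sing i (0, 1) := by
  rw [← sing_smul, ← sing_smul, ← sing_add]; simp

lemma norm_sing_le (i : ℕ) (v : ℝ × ℝ) : ‖sing i v‖ ≤ 3 * (|v.1| + |v.2|) := by
  refine norm_le fun A => ?_
  unfold ρ
  refine div_le_of_le_mul₀ (sqrt_nonneg _) (by positivity) ?_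
  by_cases hi : i ∈ A
  · rw [sum_eq_single_of_mem i hi]
    · rw [sing_val, Pi.single_eq_same]
      exact r_le _ (card_pos.2 ⟨i, hi⟩) _
    · intro j _ hj
      rw [sing_val, Pi.single_eq_of_ne hj, r_zero]
  · rw [sum_eq_zero]
    · positivity
    · intro j hj
      rw [sing_val, Pi.single_eq_of_ne (fun h : j = i => hi (h ▸ hj)), r_zero]

lemma Sop_sing (i : ℕ) (v : ℝ × ℝ) : Sop (sing i v) = sing i (v.2, 0) := by
  ext1; ext1 j
  rw [Sop_val, sing_val, sing_val]
  by_cases h : j = i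
  · subst h; simp
  · simp [Pi.single_eq_of_ne h]

lemma Vop_sing (φ : ℕ → ℕ) (hφ : StrictMono φ) (i : ℕ) (v : ℝ × ℝ) :
    Vop φ hφ (sing i v) = sing (φ i) v := by
  ext1; ext1 j
  rw [Vop_val, sing_val, sing_val]
  by_cases hi : ∃ a, φ a = j
  · obtain ⟨a, rfl⟩ := hi
    rw [hφ.injective.extend_apply]
    by_cases h : a = i
    · subst h; simp
    · rw [Pi.single_eq_of_ne h, Pi.single_eq_of_ne (hφ.injective.ne h)]
  · rw [Function.extend_apply' _ _ _ hi, Pi.single_eq_of_ne (fun h => hi ⟨i, h.symm⟩)]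
    rfl

/-- coordinate functional -/
noncomputable def coord (i : ℕ) : TW →L[ℝ] ℝ × ℝ :=
  LinearMap.mkContinuous
    { toFun := fun z => z.val i
      map_add' := fun _ _ => rfl
      map_smul' := fun _ _ => rfl } 1 fun z => by rw [one_mul]; exact norm_coord_le z i

lemma coord_apply (i : ℕ) (z : TW) : coord i z = z.val i := rfl

lemma head_eq (z : TW) (m : ℕ) :
    z - proj (Set.Ici m) z = ∑ i ∈ range m, sing i (z.val i) := by
  ext1; ext1 j
  rw [TW.val_sum, TW.val_sub, Pi.sub_apply, proj_val, Finset.sum_apply]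
  simp only [sing_val]
  by_cases h : m ≤ j
  · rw [if_pos (Set.mem_Ici.2 h), sub_self, sum_eq_zero]
    intro i hi
    exact Pi.single_eq_of_ne (by have := mem_range.1 hi; omega) _
  · rw [if_neg (fun h' => h (Set.mem_Ici.1 h')), sub_zero,
      sum_eq_single_of_mem j (mem_range.2 (not_le.1 h))]
    · simp
    · intro i _ hi
      exact Pi.single_eq_of_ne hi.symm _

lemma tail_small (z : TW) (ε : ℝ) (hε : 0 < ε) :
    ∃ m, ∀ m' ≥ m, ‖proj (Set.Ici m') z‖ ≤ ε := by
  obtain ⟨m, hm⟩ := z.prop ε hε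
  refine ⟨m, fun m' hm' => norm_le fun A => (ρ_mono A fun k i => ?_).trans (hm A)⟩
  rw [proj_val]
  simp only [tail, Set.mem_Ici]
  split_ifs with h1 h2 h2
  · exact le_rfl
  · exact absurd (le_trans hm' h1) h2
  · simpa using r_nonneg _ _
  · exact le_rfl

lemma opNorm_le_of_sing (R : TW →L[ℝ] TW) (δ : ℝ)
    (h : ∀ m, ∑ i ∈ range m, (‖R (sing i (1, 0))‖ + ‖R (sing i (0, 1))‖) ≤ δ) : ‖R‖ ≤ δ := by
  have h0 : 0 ≤ δ := by simpa using h 0
  refine R.opNorm_le_bound h0 fun z => le_of_forall_pos_le_add fun ε hε => ?_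
  obtain ⟨m, hm⟩ := tail_small z (ε / (‖R‖ + 1)) (by positivity)
  have e : R z = R (z - proj (Set.Ici m) z) + R (proj (Set.Ici m) z) := by simp
  have h1 : ‖R (proj (Set.Ici m) z)‖ ≤ ε := by
    have a := R.le_opNorm (proj (Set.Ici m) z)
    have b := hm m le_rfl
    rw [le_div_iff₀ (by positivity)] at b
    linarith only [a, b, norm_nonneg R, norm_nonneg (proj (Set.Ici m) z)]
  have h2 : ‖R (z - proj (Set.Ici m) z)‖ ≤ δ * ‖z‖ := by
    rw [head_eq, map_sum]
    refine (norm_sum_le _ _).trans (le_trans ?_ (mul_le_mul_of_nonneg_right (h m) (norm_nonneg z)))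
    rw [sum_mul]
    refine sum_le_sum fun i _ => ?_
    rw [sing_eq, map_add, map_smul, map_smul]
    refine (norm_add_le _ _).trans ?_
    rw [norm_smul, norm_smul, Real.norm_eq_abs, Real.norm_eq_abs]
    have := coord_le z i
    linarith only [this, abs_nonneg (z.val i).1, abs_nonneg (z.val i).2, norm_nonneg (R (sing i (1, 0))),
      norm_nonneg (R (sing i (0, 1))), mul_nonneg_of_nonpos_of_nonpos (Mathlib.Tactic.Linarith.sub_nonpos_of_le this) (Mathlib.Tactic.Linarith.sub_nonpos_of_le (norm_nonneg (R (sing i ((1 : ℝ), (0 : ℝ)))))), mul_nonneg_of_nonpos_of_nonpos (Mathlib.Tactic.Linarith.sub_nonpos_of_le this) (Mathlib.Tactic.Linarith.sub_nonpos_of_le (norm_nonneg (R (sing i ((0 : ℝ), (1 : ℝ)))))), mul_nonneg_of_nonpos_of_nonpos (Mathlib.Tactic.Linarith.sub_nonpos_of_le (abs_nonneg (z.val i).1)) (Mathlib.Tactic.Linarith.sub_nonpos_of_le (norm_nonneg (R (sing i ((0 : ℝ), (1 : ℝ)))))), mul_nonneg_of_nonpos_of_nonpos (Mathlib.Tactic.Linarith.sub_nonpos_of_le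 (abs_nonneg (z.val i).2)) (Mathlib.Tactic.Linarith.sub_nonpos_of_le (norm_nonneg (R (sing i ((1 : ℝ), (0 : ℝ))))))]
  rw [e]
  exact (norm_add_le _ _).trans (add_le_add h2 h1)

end Pool.Agent.Work.MP_1001d8_an
end

-- merged part: Pool.Agent.Work.MP_1001d8_an.Key
section
open Finset Real Filter
open scoped Topology

namespace Pool.Agent.Work.MP_1001d8_an

lemma scalar_ineq (t : ℝ) (ht : 0 < t) : √t * (1 + |log t|) ≤ 3 * (1 + t) := by
  have hs := sqrt_pos.2 ht
  have hsq := sq_sqrt ht.le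
  have h1 := log_le_sqrt t ht
  have h2 := log_le_sqrt t⁻¹ (inv_pos.2 ht)
  rw [log_inv, sqrt_inv] at h2
  have h3 : √t * |log t| ≤ 2 * (1 + t) := by
    rcases abs_cases (log t) with ⟨h, -⟩ | ⟨h, -⟩ <;> rw [h]
    · linarith only [hsq, hs, h1, mul_nonneg_of_nonpos_of_nonpos (le_of_lt (Mathlib.Tactic.Linarith.sub_neg_of_lt hs)) (Mathlib.Tactic.Linarith.sub_nonpos_of_le h1)]
    · have : √t * -log t ≤ √t * (2 * (√t)⁻¹) := mul_le_mul_of_nonneg_left h2 hs.le
      rw [mul_comm 2, ← mul_assoc, mul_inv_cancel₀ hs.ne'] at this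
      linarith
  linarith only [ht, hsq, h3, sq_nonneg (√t - 1), sq_nonneg (√t - (1 : ℝ))]

lemma scalar_ineq2 (a k N : ℝ) (ha : 0 < a) (hk : 0 < k) (hN : 0 < N) :
    √a * (1 + |log k - log N - log a|) ≤ 3 * (√k / √N) * (1 + a * N / k) := by
  have h := scalar_ineq (a * N / k) (by positivity)
  have e1 : log (a * N / k) = -(log k - log N - log a) := by
    rw [log_div (by positivity) hk.ne', log_mul ha.ne' hN.ne']; ring
  have e2 : √a = √k / √N * √(a * N / k) := by
    rw [sqrt_div' _ hk.le, sqrt_mul ha.le]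
    have := sqrt_pos.2 hk
    have := sqrt_pos.2 hN
    field_simp
  rw [e1, abs_neg] at h
  rw [e2, mul_assoc]
  have : 0 ≤ √k / √N := by positivity
  linarith only [h, this, mul_nonneg_of_nonpos_of_nonpos (Mathlib.Tactic.Linarith.sub_nonpos_of_le h) (Mathlib.Tactic.Linarith.sub_nonpos_of_le this)]

/-- the key estimate for disjointly supported vectors -/
lemma key_lemma {ι : Type*} (B : Finset ι) (z : ι → TW) (M : ℝ) (hM : ∀ j ∈ B, ‖z j‖ ≤ M)
    (hd : ∀ i, ∀ j ∈ B, ∀ j' ∈ B, (z j).val i ≠ 0 → (z j').val i ≠ 0 → j = j') :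
    ‖∑ j ∈ B, z j - log B.card • Sop (∑ j ∈ B, z j)‖ ≤ 6 * M * √B.card := by
  classical
  rcases B.eq_empty_or_nonempty with rfl | hB
  · simp
  have hN : (0 : ℝ) < B.card := by exact_mod_cast card_pos.2 hB
  have hM0 : 0 ≤ M := by
    obtain ⟨j, hj⟩ := hB
    exact (norm_nonneg _).trans (hM j hj)
  refine norm_le fun A => ?_
  rcases A.eq_empty_or_nonempty with rfl | hA
  · simp only [ρ, sum_empty, zero_div]; positivity
  have hk : (0 : ℝ) < A.card := by exact_mod_cast card_pos.2 hA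
  have sk := sqrt_pos.2 hk
  have sN := sqrt_pos.2 hN
  unfold ρ
  rw [div_le_iff₀ sk]
  set L := log (B.card : ℝ) with hL
  let Aj : ι → Finset ℕ := fun j => A.filter fun i => (z j).val i ≠ 0
  have e : ∀ i, (∑ j ∈ B, z j - L • Sop (∑ j ∈ B, z j)).val i =
      ∑ j ∈ B, (((z j).val i).1 - L * ((z j).val i).2, ((z j).val i).2) := by
    intro i
    rw [TW.val_sub, TW.val_smul, Pi.sub_apply, Pi.smul_apply, Sop_val, TW.val_sum,
      Finset.sum_apply]
    refine Prod.ext ?_ ?_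
    · simp [Prod.fst_sum, Prod.snd_sum, mul_sum]
    · simp [Prod.snd_sum]
  have hcard : ∑ j ∈ B, ((Aj j).card : ℝ) ≤ A.card := by
    rw [← Nat.cast_sum, ← card_biUnion]
    · exact_mod_cast card_le_card (biUnion_subset.2 fun j _ => filter_subset _ _)
    · intro j hj j' hj' hne
      rw [Function.onFun, disjoint_left]
      intro i hi hi'
      exact hne (hd i j hj j' hj' (mem_filter.1 hi).2 (mem_filter.1 hi').2)
  have hj : ∀ j ∈ B, ∑ i ∈ A, r A.card (((z j).val i).1 - L * ((z j).val i).2, ((z j).val i).2) ≤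
      M * (3 * (√A.card / √B.card) * (1 + (Aj j).card * B.card / A.card)) := by
    intro j hjB
    have e1 : ∑ i ∈ A, r A.card (((z j).val i).1 - L * ((z j).val i).2, ((z j).val i).2) =
        ∑ i ∈ Aj j, r A.card (((z j).val i).1 - L * ((z j).val i).2, ((z j).val i).2) := by
      refine (sum_filter_of_ne (p := fun i => (z j).val i ≠ 0) fun i _ h h0 => h ?_).symm
      rw [h0]; simp [r]
    rw [e1]
    rcases (Aj j).eq_empty_or_nonempty with h0 | h0
    · rw [h0]; simp only [sum_empty]; positivity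
    have ha : (0 : ℝ) < (Aj j).card := by exact_mod_cast card_pos.2 h0
    have h1 := sum_r_le (z j) (Aj j) _ le_rfl
    have h2 := scalar_ineq2 _ _ _ ha hk hN
    set c := |log (A.card : ℝ) - L - log ((Aj j).card : ℝ)| with hc
    have hc0 : 0 ≤ c := abs_nonneg _
    calc _ ≤ ∑ i ∈ Aj j, (1 + c) * r (Aj j).card ((z j).val i) := by
          refine sum_le_sum fun i _ => ?_
          unfold r
          simp only
          have a := abs_add_le (((z j).val i).1 + log ((Aj j).card : ℝ) * ((z j).val i).2)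
            ((log (A.card : ℝ) - L - log ((Aj j).card : ℝ)) * ((z j).val i).2)
          rw [abs_mul, ← hc] at a
          rw [show ((z j).val i).1 - L * ((z j).val i).2 + log (A.card : ℝ) * ((z j).val i).2 =
            ((z j).val i).1 + log ((Aj j).card : ℝ) * ((z j).val i).2 +
              (log (A.card : ℝ) - L - log ((Aj j).card : ℝ)) * ((z j).val i).2 by ring]
          linarith only [a, hc0, abs_nonneg (((z j).val i).1 + log ((Aj j).card : ℝ) * ((z j).val i).2), mul_nonneg_of_nonpos_of_nonpos (Mathlib.Tactic.Linarith.sub_nonpos_of_le hc0) (Mathlib.Tactic.Linarith.sub_nonpos_of_le (abs_nonneg (((z j).val i).1 + log ↑(#(Aj j)) * ((z j).val i).2)))]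
      _ ≤ (1 + c) * (√(Aj j).card * M) := by
          rw [← mul_sum]
          exact mul_le_mul_of_nonneg_left
            (h1.trans (mul_le_mul_of_nonneg_left (hM j hjB) (sqrt_nonneg _))) (by linarith only [hc0])
      _ ≤ _ := by linarith only [hM0, h2, mul_nonneg_of_nonpos_of_nonpos (Mathlib.Tactic.Linarith.sub_nonpos_of_le hM0) (Mathlib.Tactic.Linarith.sub_nonpos_of_le h2)]
  calc ∑ i ∈ A, r A.card ((∑ j ∈ B, z j - L • Sop (∑ j ∈ B, z j)).val i)
      ≤ ∑ i ∈ A, ∑ j ∈ B, r A.card (((z j).val i).1 - L * ((z j).val i).2, ((z j).val i).2) :=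
        sum_le_sum fun i _ => by rw [e]; exact r_sum _ _ _
    _ ≤ ∑ j ∈ B, M * (3 * (√A.card / √B.card) * (1 + (Aj j).card * B.card / A.card)) := by
        rw [sum_comm]; exact sum_le_sum hj
    _ = M * (3 * (√A.card / √B.card)) *
        (B.card + (∑ j ∈ B, ((Aj j).card : ℝ)) * B.card / A.card) := by
        rw [← mul_sum, ← mul_sum, sum_add_distrib, ← sum_div, ← sum_mul]
        simp only [sum_const, nsmul_eq_mul, mul_one]
        ring
    _ ≤ M * (3 * (√A.card / √B.card)) * (B.card + B.card) := by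
        gcongr
        rw [div_le_iff₀ hk]
        linarith only [hcard, mul_nonneg_of_nonpos_of_nonpos (Mathlib.Tactic.Linarith.sub_nonpos_of_le (Mathlib.Tactic.Linarith.natCast_nonneg ℝ #B)) (Mathlib.Tactic.Linarith.sub_nonpos_of_le hcard)]
    _ = 6 * M * √B.card * √A.card := by
        have := mul_self_sqrt hN.le
        field_simp
        nlinarith

lemma sing_disj {ι : Type*} (B : Finset ι) (φ : ι → ℕ) (hφ : Function.Injective φ)
    (v : ι → ℝ × ℝ) : ∀ i, ∀ j ∈ B, ∀ j' ∈ B, (sing (φ j) (v j)).val i ≠ 0 →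
      (sing (φ j') (v j')).val i ≠ 0 → j = j' := by
  intro i j _ j' _ h h'
  rw [sing_val] at h h'
  have a : i = φ j := by by_contra hne; exact h (Pi.single_eq_of_ne hne _)
  have b : i = φ j' := by by_contra hne; exact h' (Pi.single_eq_of_ne hne _)
  exact hφ (a.symm.trans b)

/-- constant vectors on an initial segment -/
noncomputable def cst (N : ℕ) (v : ℝ × ℝ) : TW := ∑ j ∈ range N, sing j v

lemma cst_lower (N : ℕ) (hN : 0 < N) (v : ℝ × ℝ) : √N * |v.1 + log N * v.2| ≤ ‖cst N v‖ := by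
  have h := ρ_le_norm (range N) (cst N v)
  have hN' : (0 : ℝ) < N := by exact_mod_cast hN
  have e : ∀ i ∈ range N, (cst N v).val i = v := by
    intro i hi
    rw [cst, TW.val_sum, Finset.sum_apply, sum_eq_single_of_mem i hi]
    · simp [sing_val]
    · intro j _ hj
      exact Pi.single_eq_of_ne hj.symm _
  unfold ρ at h
  rw [sum_congr rfl fun i hi => by rw [e i hi], card_range, sum_const, card_range, nsmul_eq_mul,
    mul_comm, mul_div_assoc, div_sqrt] at h
  refine le_trans ?_ h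
  rw [mul_comm]
  refine mul_le_mul_of_nonneg_right ?_ (sqrt_nonneg _)
  unfold r
  linarith only [abs_nonneg v.2]

lemma cst_add (N : ℕ) (v w : ℝ × ℝ) : cst N (v + w) = cst N v + cst N w := by
  simp [cst, sing_add, sum_add_distrib]

lemma cst_smul (N : ℕ) (c : ℝ) (v : ℝ × ℝ) : cst N (c • v) = c • cst N v := by
  simp only [cst, sing_smul, smul_sum]

lemma cst_sub (N : ℕ) (v w : ℝ × ℝ) : cst N (v - w) = cst N v - cst N w := by
  simp [cst, sing_sub, sum_sub_distrib]

lemma Sop_cst (N : ℕ) (v : ℝ × ℝ) : Sop (cst N v) = cst N (v.2, 0) := by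
  simp [cst, map_sum, Sop_sing]

lemma norm_cst_f (N : ℕ) : ‖cst N (1, 0)‖ ≤ 18 * √N := by
  have h := key_lemma (range N) (fun j => sing j (1, 0)) 3
    (fun j _ => by simpa using norm_sing_le j (1, 0))
    (sing_disj _ id Function.injective_id _)
  have e : Sop (cst N (1, 0)) = 0 := by
    rw [Sop_cst, show ((((1 : ℝ), (0 : ℝ)).2, 0) : ℝ × ℝ) = (0 : ℝ) • (0, 0) by simp, cst_smul,
      zero_smul]
  rw [card_range] at h
  change ‖cst N (1, 0) - log N • Sop (cst N (1, 0))‖ ≤ _ at h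
  rw [e, smul_zero, sub_zero] at h
  linarith

lemma norm_cst_g (N : ℕ) : ‖cst N (0, 1) - log N • cst N (1, 0)‖ ≤ 18 * √N := by
  have h := key_lemma (range N) (fun j => sing j (0, 1)) 3
    (fun j _ => by simpa using norm_sing_le j (0, 1))
    (sing_disj _ id Function.injective_id _)
  rw [card_range] at h
  change ‖cst N (0, 1) - log N • Sop (cst N (0, 1))‖ ≤ _ at h
  rw [Sop_cst] at h
  linarith

lemma coef_zero (α β K K' : ℝ)
    (h : ∀ N : ℕ, 0 < N → √N * |α + log N * β| ≤ K * √N + K' * (1 + log N)) : β = 0 := by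
  by_contra hβ
  have hb : 0 < |β| := abs_pos.2 hβ
  have t : Tendsto (fun N : ℕ => log (N : ℝ)) atTop atTop :=
    tendsto_log_atTop.comp tendsto_natCast_atTop_atTop
  obtain ⟨N, h1, h2⟩ := ((t.eventually_gt_atTop ((|α| + K + 3 * |K'|) / |β|)).and
    (eventually_gt_atTop 0)).exists
  have hN : (1 : ℝ) ≤ N := by exact_mod_cast h2
  have a := h N h2
  have b := one_add_log_le N h2
  have l0 := log_nonneg hN
  have sN : 0 < √(N : ℝ) := sqrt_pos.2 (by linarith only [hN])
  have c : K' * (1 + log N) ≤ 3 * |K'| * √N := by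
    linarith only [b, l0, le_abs_self K', abs_nonneg K', mul_nonneg_of_nonpos_of_nonpos (Mathlib.Tactic.Linarith.sub_nonpos_of_le b) (Mathlib.Tactic.Linarith.sub_nonpos_of_le (abs_nonneg K')), mul_nonneg_of_nonpos_of_nonpos (Mathlib.Tactic.Linarith.sub_nonpos_of_le l0) (Mathlib.Tactic.Linarith.sub_nonpos_of_le (le_abs_self K'))]
  have d : |α + log N * β| ≤ K + 3 * |K'| := by
    by_contra hc
    push Not at hc
    linarith only [a, c, hc, b, l0, mul_nonneg_of_nonpos_of_nonpos (Mathlib.Tactic.Linarith.sub_nonpos_of_le b) (le_of_lt (Mathlib.Tactic.Linarith.sub_neg_of_lt hc)), mul_nonneg_of_nonpos_of_nonpos (Mathlib.Tactic.Linarith.sub_nonpos_of_le l0) (le_of_lt (Mathlib.Tactic.Linarith.sub_neg_of_lt hc))]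
  have e := abs_add_le (α + log N * β) (-α)
  rw [show α + log N * β + -α = log N * β by ring, abs_mul, abs_neg, abs_of_nonneg l0] at e
  rw [div_lt_iff₀ hb] at h1
  linarith

lemma weak_null (f : TW →L[ℝ] ℝ) (v : ℝ × ℝ) : Tendsto (fun j => f (sing j v)) atTop (𝓝 0) := by
  classical
  by_contra hcon
  rw [Metric.tendsto_atTop] at hcon
  push Not at hcon
  obtain ⟨δ, hδ, hfr⟩ := hcon
  have hfr' : ∃ᶠ j in atTop, δ ≤ |f (sing j v)| := frequently_atTop.2 fun a => by
    obtain ⟨b, hb, h⟩ := hfr a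
    exact ⟨b, hb, by simpa [Real.dist_eq] using h⟩
  obtain ⟨φ, hφ, hφ'⟩ := extraction_of_frequently_atTop hfr'
  set M := 3 * (|v.1| + |v.2|) with hM
  have hM0 : 0 ≤ M := by positivity
  have bound : ∀ N : ℕ, 0 < N → δ * N ≤ ‖f‖ * (6 * M * √N * (1 + log N)) := by
    intro N hN
    let s : ℕ → ℝ := fun j => if 0 ≤ f (sing (φ j) v) then 1 else -1
    have hs : ∀ j, |s j| = 1 := fun j => by simp only [s]; split_ifs <;> simp
    have hs' : ∀ j, δ ≤ f (sing (φ j) (s j • v)) := fun j => by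
      rw [sing_smul, map_smul, smul_eq_mul]
      have := hφ' j
      simp only [s]
      split_ifs with h
      · rwa [abs_of_nonneg h, ← one_mul (f _)] at this
      · rw [abs_of_neg (not_le.1 h)] at this; linarith only [this]
    have hn : ∀ j (w : ℝ × ℝ), |w.1| + |w.2| ≤ |v.1| + |v.2| → ‖sing (φ j) (s j • w)‖ ≤ M := by
      intro j w hw
      rw [sing_smul, norm_smul, Real.norm_eq_abs, hs, one_mul]
      linarith only [hw, norm_sing_le (φ j) w]
    have k1 := key_lemma (range N) (fun j => sing (φ j) (s j • v)) M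
      (fun j _ => hn j v le_rfl) (sing_disj _ φ hφ.injective _)
    have k2 := key_lemma (range N) (fun j => sing (φ j) (s j • (v.2, 0))) M
      (fun j _ => hn j _ (by simp)) (sing_disj _ φ hφ.injective _)
    have e : Sop (∑ j ∈ range N, sing (φ j) (s j • v)) =
        ∑ j ∈ range N, sing (φ j) (s j • (v.2, 0)) := by
      rw [map_sum]
      refine sum_congr rfl fun j _ => ?_
      rw [Sop_sing]; simp
    rw [← e, Sop_Sop, smul_zero, sub_zero, card_range] at k2
    rw [card_range] at k1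
    have l0 : 0 ≤ log (N : ℝ) := log_nonneg (by exact_mod_cast hN)
    set w := ∑ j ∈ range N, sing (φ j) (s j • v) with hw
    have k3 : ‖w‖ ≤ 6 * M * √N * (1 + log N) := by
      have := norm_add_le (w - log N • Sop w) (log N • Sop w)
      rw [sub_add_cancel, norm_smul, Real.norm_eq_abs, abs_of_nonneg l0] at this
      linarith only [k1, this, l0, k2, mul_nonneg_of_nonpos_of_nonpos (Mathlib.Tactic.Linarith.sub_nonpos_of_le l0) (Mathlib.Tactic.Linarith.sub_nonpos_of_le k2)]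
    have k4 : δ * N ≤ f w := by
      rw [hw, map_sum]
      have := sum_le_sum fun j (_ : j ∈ range N) => hs' j
      simpa [mul_comm] using this
    calc δ * N ≤ ‖f w‖ := k4.trans (le_abs_self _)
      _ ≤ ‖f‖ * ‖w‖ := f.le_opNorm w
      _ ≤ _ := mul_le_mul_of_nonneg_left k3 (norm_nonneg _)
  have t : Tendsto (fun N : ℕ => √(√(N : ℝ))) atTop atTop :=
    tendsto_sqrt_atTop.comp (tendsto_sqrt_atTop.comp tendsto_natCast_atTop_atTop)
  obtain ⟨N, h1, h2⟩ := ((t.eventually_gt_atTop (‖f‖ * (30 * M) / δ)).and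
    (eventually_gt_atTop 0)).exists
  have hN : (1 : ℝ) ≤ N := by exact_mod_cast h2
  have b := bound N h2
  set s := √(N : ℝ) with hs
  have s1 : 1 ≤ s := one_le_sqrt.2 hN
  set q := √s with hq
  have q1 : 1 ≤ q := one_le_sqrt.2 s1
  have e1 : s * s = N := mul_self_sqrt (by linarith only [hN])
  have e2 : q * q = s := mul_self_sqrt (by linarith only [s1])
  have l1 : log (N : ℝ) ≤ 4 * q := by
    have := log_le_sqrt s (by linarith only [s1])
    rw [hs, log_sqrt (by linarith only [hN])] at this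
    linarith only [this]
  rw [div_lt_iff₀ hδ] at h1
  have c1 : 6 * M * s * (1 + log N) ≤ 30 * M * s * q := by
    have : 1 + log (N : ℝ) ≤ 5 * q := by linarith only [q1, l1]
    nlinarith only [q1, hM0, s1, l1, mul_nonneg hM0 (by linarith : 0 ≤ s)]
  have c2 : δ * N ≤ ‖f‖ * (30 * M) * (s * q) := by
    linarith only [b, c1, norm_nonneg f, mul_nonneg_of_nonpos_of_nonpos (Mathlib.Tactic.Linarith.sub_nonpos_of_le c1) (Mathlib.Tactic.Linarith.sub_nonpos_of_le (norm_nonneg f))]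
  have c3 : ‖f‖ * (30 * M) * (s * q) < q * δ * (s * q) :=
    mul_lt_mul_of_pos_right h1 (by positivity)
  rw [← e1] at c2
  rw [show q * δ * (s * q) = δ * (s * (q * q)) by ring, e2] at c3
  linarith only [c2, c3]

end Pool.Agent.Work.MP_1001d8_an
end

-- merged part: Pool.Agent.Work.MP_1001d8_an.Diag
section
open Finset Real Filter
open scoped Topology

namespace Pool.Agent.Work.MP_1001d8_an

lemma head_small (w : ℕ → TW) (hw : ∀ i, Tendsto (fun j => (w j).val i) atTop (𝓝 0)) (a : ℕ)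
    (ε : ℝ) (hε : 0 < ε) : ∀ᶠ j in atTop, ‖w j - proj (Set.Ici a) (w j)‖ ≤ ε := by
  have t : Tendsto (fun j => ∑ i ∈ range a, 3 * (|((w j).val i).1| + |((w j).val i).2|)) atTop
      (𝓝 (∑ i ∈ range a, 3 * (|(0 : ℝ × ℝ).1| + |(0 : ℝ × ℝ).2|))) :=
    tendsto_finsetSum _ fun i _ =>
      (((continuous_fst.tendsto _).comp (hw i)).abs.add
        ((continuous_snd.tendsto _).comp (hw i)).abs).const_mul 3
  simp only [Prod.fst_zero, Prod.snd_zero, abs_zero, add_zero, mul_zero, sum_const_zero] at t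
  filter_upwards [t.eventually_le_const hε] with j hj
  rw [head_eq]
  exact (norm_sum_le _ _).trans ((sum_le_sum fun i _ => norm_sing_le _ _).trans hj)

lemma block_split (z : TW) (a b : ℕ) (hab : a ≤ b) :
    z - proj (Set.Ico a b) z = (z - proj (Set.Ici a) z) + proj (Set.Ici b) z := by
  ext1; ext1 i
  simp only [TW.val_sub, TW.val_add, Pi.sub_apply, Pi.add_apply, proj_val, Set.mem_Ico,
    Set.mem_Ici]
  by_cases h1 : a ≤ i <;> by_cases h2 : b ≤ i
  · simp [h1, h2]
  · simp [h1, h2, not_le.1 h2]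
  · omega
  · simp [h1, h2]

lemma select (w w' : ℕ → TW) (hw : ∀ i, Tendsto (fun j => (w j).val i) atTop (𝓝 0))
    (hw' : ∀ i, Tendsto (fun j => (w' j).val i) atTop (𝓝 0)) (Q : ℕ → ℕ → Prop)
    (hQ : ∀ k, ∃ᶠ j in atTop, Q k j) (ε : ℕ → ℝ) (hε : ∀ k, 0 < ε k) :
    ∃ φ m : ℕ → ℕ, StrictMono φ ∧ StrictMono m ∧ (∀ k, m k ≤ φ k ∧ φ k < m (k + 1)) ∧
      (∀ k, Q k (φ k)) ∧
      (∀ k, ‖w (φ k) - proj (Set.Ico (m k) (m (k + 1))) (w (φ k))‖ ≤ ε k) ∧
      (∀ k, ‖w' (φ k) - proj (Set.Ico (m k) (m (k + 1))) (w' (φ k))‖ ≤ ε k) := by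
  have step : ∀ k a, ∃ j b, a ≤ j ∧ j < b ∧ Q k j ∧
      ‖w j - proj (Set.Ico a b) (w j)‖ ≤ ε k ∧ ‖w' j - proj (Set.Ico a b) (w' j)‖ ≤ ε k := by
    intro k a
    have h2 : 0 < ε k / 2 := by linarith only [hε, hε k]
    obtain ⟨j, hj, h3, h4, h5⟩ := ((hQ k).and_eventually ((head_small w hw a _ h2).and
      ((head_small w' hw' a _ h2).and (eventually_ge_atTop a)))).exists
    obtain ⟨b1, hb1⟩ := tail_small (w j) _ h2
    obtain ⟨b2, hb2⟩ := tail_small (w' j) _ h2
    refine ⟨j, max (j + 1) (max b1 b2), h5, by omega, hj, ?_, ?_⟩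
    · rw [block_split _ _ _ (by omega)]
      refine (norm_add_le _ _).trans ?_
      linarith only [h3, hb1, hb1 (max (j + 1) (max b1 b2)) (by omega)]
    · rw [block_split _ _ _ (by omega)]
      refine (norm_add_le _ _).trans ?_
      linarith only [h4, hb2, hb2 (max (j + 1) (max b1 b2)) (by omega)]
  choose J b h1 h2 h3 h4 h5 using step
  let m : ℕ → ℕ := fun k => Nat.rec 0 (fun k a => b k a) k
  have hm : ∀ k, m (k + 1) = b k (m k) := fun k => rfl
  refine ⟨fun k => J k (m k), m, strictMono_nat_of_lt_succ fun k => ?_,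
    strictMono_nat_of_lt_succ fun k => ?_, fun k => ⟨h1 k _, h2 k _⟩, fun k => h3 k _,
    fun k => h4 k _, fun k => h5 k _⟩
  · exact (h2 k _).trans_le (h1 (k + 1) _)
  · exact (h1 k _).trans_lt (h2 k _)

lemma block_unique {m : ℕ → ℕ} (hm : StrictMono m) {i k l : ℕ}
    (h1 : i ∈ Set.Ico (m k) (m (k + 1))) (h2 : i ∈ Set.Ico (m l) (m (l + 1))) : k = l := by
  have a := hm.lt_iff_lt.1 (h1.1.trans_lt h2.2)
  have b := hm.lt_iff_lt.1 (h2.1.trans_lt h1.2)
  omega

lemma coord_null (T : TW →L[ℝ] TW) (v : ℝ × ℝ) (i : ℕ) :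
    Tendsto (fun j => (T (sing j v)).val i) atTop (𝓝 0) := by
  have a := weak_null ((ContinuousLinearMap.fst ℝ ℝ ℝ).comp ((coord i).comp T)) v
  have b := weak_null ((ContinuousLinearMap.snd ℝ ℝ ℝ).comp ((coord i).comp T)) v
  exact a.prodMk_nhds b

lemma geom_le (ψ : ℕ → ℕ) (hψ : Function.Injective ψ) (N : ℕ) (δ : ℝ) (hδ : 0 ≤ δ) :
    ∑ j ∈ range N, δ * (1 / 2) ^ ψ j ≤ 2 * δ := by
  rw [← mul_sum, mul_comm]
  refine mul_le_mul_of_nonneg_right ?_ hδ
  have := summable_geometric_two.sum_le_tsum ((range N).map ⟨ψ, hψ⟩) fun i _ => by positivity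
  rwa [sum_map, tsum_geometric_two] at this

lemma sum_err (R : TW →L[ℝ] TW) (v u : ℝ × ℝ) (δ : ℝ) (hδ : 0 ≤ δ)
    (h : ∀ k, ‖R (sing k v) - sing k u‖ ≤ δ * (1 / 2) ^ k) (N : ℕ) :
    ‖R (cst N v) - cst N u‖ ≤ 2 * δ := by
  unfold cst
  rw [map_sum, ← sum_sub_distrib]
  exact (norm_sum_le _ _).trans ((sum_le_sum fun k _ => h k).trans
    (geom_le id Function.injective_id N δ hδ))

lemma norm_sing_le' (i : ℕ) (v : ℝ × ℝ) : ‖sing i v‖ ≤ 6 * ‖v‖ := by
  have a : |v.1| ≤ ‖v‖ := norm_fst_le v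
  have b : |v.2| ≤ ‖v‖ := norm_snd_le v
  linarith only [a, b, norm_sing_le i v]

lemma comp_le (φ : ℕ → ℕ) (hφ : StrictMono φ) (T : TW →L[ℝ] TW) (z : TW) :
    ‖Uop φ hφ (T (Vop φ hφ z))‖ ≤ ‖T‖ * ‖z‖ :=
  (Uop_le _ _ _).trans ((T.le_opNorm _).trans
    (mul_le_mul_of_nonneg_left (Vop_le _ _ _) (norm_nonneg _)))

/-- every operator compresses to `a + b S` up to a summable error -/
theorem diag (T : TW →L[ℝ] TW) (δ : ℝ) (hδ : 0 < δ) :
    ∃ (φ : ℕ → ℕ) (hφ : StrictMono φ) (a b : ℝ), |b| ≤ 3 * ‖T‖ ∧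
      (∀ k, ‖Uop φ hφ (T (Vop φ hφ (sing k (1, 0)))) - sing k (a, 0)‖ ≤ δ * (1 / 2) ^ k) ∧
      (∀ k, ‖Uop φ hφ (T (Vop φ hφ (sing k (0, 1)))) - sing k (b, a)‖ ≤ δ * (1 / 2) ^ k) := by
  let D : ℕ → (ℝ × ℝ) × (ℝ × ℝ) := fun j => ((T (sing j (1, 0))).val j, (T (sing j (0, 1))).val j)
  have hD : ∀ j, D j ∈ Metric.closedBall 0 (3 * ‖T‖) := by
    intro j
    rw [mem_closedBall_zero_iff, Prod.norm_def]
    have a : ‖sing j (1, 0)‖ ≤ 3 := by simpa using norm_sing_le j (1, 0)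
    have b : ‖sing j (0, 1)‖ ≤ 3 := by simpa using norm_sing_le j (0, 1)
    refine max_le ((norm_coord_le _ _).trans ((T.le_opNorm _).trans ?_))
      ((norm_coord_le _ _).trans ((T.le_opNorm _).trans ?_)) <;> linarith only [a, b, norm_nonneg T, mul_nonneg_of_nonpos_of_nonpos (Mathlib.Tactic.Linarith.sub_nonpos_of_le a) (Mathlib.Tactic.Linarith.sub_nonpos_of_le (norm_nonneg T)), mul_nonneg_of_nonpos_of_nonpos (Mathlib.Tactic.Linarith.sub_nonpos_of_le b) (Mathlib.Tactic.Linarith.sub_nonpos_of_le (norm_nonneg T))]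
  obtain ⟨d, hd, ψ, hψ, hlim⟩ := (isCompact_closedBall _ _).tendsto_subseq hD
  obtain ⟨φ, m, hφ, hm, hin, hQ, e1, e2⟩ := select (fun j => T (sing j (1, 0)))
    (fun j => T (sing j (0, 1))) (coord_null T _) (coord_null T _)
    (fun k j => ‖D j - d‖ ≤ δ * (1 / 2) ^ k / 7) (fun k => by
      have := (tendsto_iff_norm_sub_tendsto_zero.1 hlim).eventually_le_const
        (show 0 < δ * (1 / 2) ^ k / 7 by positivity)
      exact hψ.tendsto_atTop.frequently this.frequently)
    (fun k => δ * (1 / 2) ^ k / 7) (fun k => by positivity)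
  have hU : ∀ k (z : TW), Uop φ hφ (proj (Set.Ico (m k) (m (k + 1))) z) =
      sing k (z.val (φ k)) := by
    intro k z
    ext1; ext1 i
    rw [Uop_val, proj_val, sing_val]
    by_cases h : i = k
    · subst h
      rw [if_pos (Set.mem_Ico.2 (hin i)), Pi.single_eq_same]
    · rw [if_neg (fun h' => h (block_unique hm (hin i) h')), Pi.single_eq_of_ne h]
  have gen : ∀ k (z : TW) (u : ℝ × ℝ),
      ‖z - proj (Set.Ico (m k) (m (k + 1))) z‖ ≤ δ * (1 / 2) ^ k / 7 →
      ‖z.val (φ k) - u‖ ≤ δ * (1 / 2) ^ k / 7 → ‖Uop φ hφ z - sing k u‖ ≤ δ * (1 / 2) ^ k := by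
    intro k z u h1 h2
    have e : Uop φ hφ z - sing k u = Uop φ hφ (z - proj (Set.Ico (m k) (m (k + 1))) z) +
        sing k (z.val (φ k) - u) := by
      rw [map_sub, hU, sing_sub]; abel
    rw [e]
    refine (norm_add_le _ _).trans ?_
    linarith only [hφ, h1, h2, Uop_le φ hφ (z - proj (Set.Ico (m k) (m (k + 1))) z),
      norm_sing_le' k (z.val (φ k) - u)]
  obtain ⟨⟨a, c⟩, ⟨b, e⟩⟩ := d
  let R : TW →L[ℝ] TW := (Uop φ hφ).comp (T.comp (Vop φ hφ))
  have f1 : ∀ k, ‖R (sing k (1, 0)) - sing k (a, c)‖ ≤ δ * (1 / 2) ^ k := fun k => by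
    simp only [R, ContinuousLinearMap.comp_apply, Vop_sing]
    exact gen k _ _ (e1 k) ((norm_fst_le (D (φ k) - ((a, c), (b, e)))).trans (hQ k))
  have f2 : ∀ k, ‖R (sing k (0, 1)) - sing k (b, e)‖ ≤ δ * (1 / 2) ^ k := fun k => by
    simp only [R, ContinuousLinearMap.comp_apply, Vop_sing]
    exact gen k _ _ (e2 k) ((norm_snd_le (D (φ k) - ((a, c), (b, e)))).trans (hQ k))
  have hR : ∀ z, ‖R z‖ ≤ ‖T‖ * ‖z‖ := comp_le φ hφ T
  have hT := norm_nonneg T
  have hc : c = 0 := coef_zero a c (18 * ‖T‖) (2 * δ) fun N hN => by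
    have l0 : 0 ≤ log (N : ℝ) := log_nonneg (by exact_mod_cast hN)
    have s1 := sum_err R _ _ δ hδ.le f1 N
    have s2 := cst_lower N hN (a, c)
    have s3 := norm_sub_norm_le (cst N (a, c)) (R (cst N (1, 0)))
    rw [norm_sub_rev] at s3
    have s4 := hR (cst N (1, 0))
    have s5 := norm_cst_f N
    simp only at s2
    linarith only [s1, s2, s3, s4, hδ, l0, hT, s5, mul_nonneg_of_nonpos_of_nonpos (le_of_lt (Mathlib.Tactic.Linarith.sub_neg_of_lt hδ)) (Mathlib.Tactic.Linarith.sub_nonpos_of_le l0), mul_nonneg_of_nonpos_of_nonpos (Mathlib.Tactic.Linarith.sub_nonpos_of_le hT) (Mathlib.Tactic.Linarith.sub_nonpos_of_le s5)]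
  subst hc
  have he : e - a = 0 := coef_zero b (e - a) (18 * ‖T‖) (2 * δ) fun N hN => by
    have l0 : 0 ≤ log (N : ℝ) := log_nonneg (by exact_mod_cast hN)
    have s1 := sum_err R _ _ δ hδ.le f1 N
    have s1' := sum_err R _ _ δ hδ.le f2 N
    have s2 := cst_lower N hN ((b, e) - log N • (a, 0))
    have s4 := hR (cst N (0, 1) - log N • cst N (1, 0))
    have s5 := norm_cst_g N
    have e3 : cst N ((b, e) - log N • (a, 0)) = R (cst N (0, 1) - log N • cst N (1, 0)) -
        (R (cst N (0, 1)) - cst N (b, e)) + log N • (R (cst N (1, 0)) - cst N (a, 0)) := by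
      rw [cst_sub, cst_smul, map_sub, map_smul, smul_sub]; abel
    have s3 := norm_add_le (R (cst N (0, 1) - log N • cst N (1, 0)) -
        (R (cst N (0, 1)) - cst N (b, e))) (log N • (R (cst N (1, 0)) - cst N (a, 0)))
    have s6 := norm_sub_le (R (cst N (0, 1) - log N • cst N (1, 0)))
        (R (cst N (0, 1)) - cst N (b, e))
    rw [← e3, norm_smul, Real.norm_eq_abs, abs_of_nonneg l0] at s3
    simp only [Prod.fst_sub, Prod.snd_sub, Prod.smul_fst, Prod.smul_snd, smul_eq_mul, mul_zero,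
      sub_zero] at s2
    rw [show b - log N * a + log N * e = b + log N * (e - a) by ring] at s2
    linarith only [s1', s4, s3, s6, s2, s1, l0, hT, s5, mul_le_mul_of_nonneg_left s1 l0, mul_nonneg_of_nonpos_of_nonpos (Mathlib.Tactic.Linarith.sub_nonpos_of_le hT) (Mathlib.Tactic.Linarith.sub_nonpos_of_le s5)]
  have : e = a := by linarith
  subst this
  refine ⟨φ, hφ, e, b, ?_, f1, f2⟩
  rw [mem_closedBall_zero_iff] at hd
  exact (norm_fst_le (b, e)).trans ((norm_snd_le ((e, (0 : ℝ)), (b, e))).trans hd)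

/-- images of basis vectors are nearly disjoint along a subsequence -/
theorem near_disj (V : TW →L[ℝ] TW) : ∃ (φ : ℕ → ℕ) (hφ : StrictMono φ),
    ∀ (ψ : ℕ → ℕ) (hψ : StrictMono ψ) (N : ℕ), 0 < N → ∀ v ∈ ({(1, 0), (0, 1)} : Set (ℝ × ℝ)),
      ‖V (Vop φ hφ (Vop ψ hψ (cst N v))) - log N • Sop (V (Vop φ hφ (Vop ψ hψ (cst N v))))‖ ≤
        18 * ‖V‖ * √N + 2 * (1 + log N) := by
  obtain ⟨φ, m, hφ, hm, -, -, e1, e2⟩ := select (fun j => V (sing j (1, 0)))
    (fun j => V (sing j (0, 1))) (coord_null V _) (coord_null V _) (fun _ _ => True)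
    (fun k => (Eventually.of_forall fun _ => trivial).frequently)
    (fun k => 1 * (1 / 2) ^ k) (fun k => by positivity)
  refine ⟨φ, hφ, fun ψ hψ N hN v hv => ?_⟩
  have l0 : 0 ≤ log (N : ℝ) := log_nonneg (by exact_mod_cast hN)
  have hv3 : ∀ j, ‖sing j v‖ ≤ 3 := fun j => by
    rcases hv with rfl | rfl
    · simpa using norm_sing_le j (1, 0)
    · simpa using norm_sing_le j (0, 1)
  have e3 : ∀ k, ‖V (sing (φ k) v) - proj (Set.Ico (m k) (m (k + 1))) (V (sing (φ k) v))‖ ≤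
      1 * (1 / 2) ^ k := by
    rcases hv with rfl | rfl
    · exact e1
    · exact e2
  let z : ℕ → TW := fun j => proj (Set.Ico (m (ψ j)) (m (ψ j + 1))) (V (sing (φ (ψ j)) v))
  have k1 := key_lemma (range N) z (3 * ‖V‖) (fun j _ => (proj_le _ _).trans
    ((V.le_opNorm _).trans (by linarith only [hv3, hv3 (φ (ψ j)), norm_nonneg V, mul_nonneg_of_nonpos_of_nonpos (Mathlib.Tactic.Linarith.sub_nonpos_of_le (hv3 (φ (ψ j)))) (Mathlib.Tactic.Linarith.sub_nonpos_of_le (norm_nonneg V))]))) (by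
      intro i j _ j' _ h h'
      simp only [z, proj_val] at h h'
      refine hψ.injective (block_unique hm (i := i) ?_ ?_)
      · by_contra hc; exact h (if_neg hc)
      · by_contra hc; exact h' (if_neg hc))
  rw [card_range] at k1
  set w := V (Vop φ hφ (Vop ψ hψ (cst N v))) with hw
  have k2 : ‖w - ∑ j ∈ range N, z j‖ ≤ 2 := by
    rw [hw, cst, map_sum, map_sum, map_sum, ← sum_sub_distrib]
    simp only [Vop_sing]
    have := geom_le ψ hψ.injective N 1 zero_le_one
    exact (norm_sum_le _ _).trans ((sum_le_sum fun j _ => e3 (ψ j)).trans (by linarith only [this]))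
  have e : w - log N • Sop w = (∑ j ∈ range N, z j - log N • Sop (∑ j ∈ range N, z j)) +
      ((w - ∑ j ∈ range N, z j) - log N • Sop (w - ∑ j ∈ range N, z j)) := by
    rw [map_sub, smul_sub]; abel
  rw [e]
  refine (norm_add_le _ _).trans ?_
  have k3 := norm_sub_le (w - ∑ j ∈ range N, z j) (log N • Sop (w - ∑ j ∈ range N, z j))
  rw [norm_smul, Real.norm_eq_abs, abs_of_nonneg l0] at k3
  have k4 := mul_le_mul_of_nonneg_left ((Sop_le (w - ∑ j ∈ range N, z j)).trans k2) l0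
  linarith only [k1, k2, k3, k4]

end Pool.Agent.Work.MP_1001d8_an
end
end

-- merged part: Pool.Agent.Work.MP_1001d8_an.Main
section
open Finset Real Filter
open scoped Topology

namespace Pool.Agent.Work.MP_1001d8_an

lemma norm_Sop : ‖Sop‖ ≤ 1 := Sop.opNorm_le_bound zero_le_one fun z => by
  rw [one_mul]; exact Sop_le z

lemma factor_of_close (X : TW →L[ℝ] TW) (a b K : ℝ) (ha : 1 / 2 ≤ |a|) (hb : |b| ≤ K)
    (h : ‖X - (a • (1 : TW →L[ℝ] TW) + b • Sop)‖ * (2 + 4 * K) < 1) :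
    ∃ W : TW →L[ℝ] TW, W * X = 1 := by
  have ha0 : a ≠ 0 := fun h0 => by rw [h0] at ha; norm_num at ha
  have hK : 0 ≤ K := (abs_nonneg _).trans hb
  let G : TW →L[ℝ] TW := a⁻¹ • (1 : TW →L[ℝ] TW) - (b * a⁻¹ * a⁻¹) • Sop
  have hG : G * (a • (1 : TW →L[ℝ] TW) + b • Sop) = 1 := by
    ext1 z
    simp only [G, mul_apply_eq_comp, sub_apply, add_apply, smul_apply,
      one_apply_eq_self, map_add, map_smul, Sop_Sop, smul_zero]
    match_scalars
    · field_simp
    · field_simp; ring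
  have hi : |a⁻¹| ≤ 2 := by
    rw [abs_inv]
    exact inv_le_of_inv_le₀ (by norm_num) (by linarith only [ha])
  have hGn : ‖G‖ ≤ 2 + 4 * K := by
    refine (norm_sub_le _ _).trans (add_le_add ?_ ?_)
    · rw [norm_smul, Real.norm_eq_abs]
      have : ‖(1 : TW →L[ℝ] TW)‖ ≤ 1 := ContinuousLinearMap.norm_id_le
      linarith only [this, hi, abs_nonneg a⁻¹, norm_nonneg (1 : TW →L[ℝ] TW), mul_nonneg_of_nonpos_of_nonpos (Mathlib.Tactic.Linarith.sub_nonpos_of_le hi) (Mathlib.Tactic.Linarith.sub_nonpos_of_le (norm_nonneg (1 : TW →L[ℝ] TW)))]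
    · rw [norm_smul, Real.norm_eq_abs, abs_mul, abs_mul]
      have h1 : |a⁻¹| * |a⁻¹| ≤ 4 := by linarith only [hi, abs_nonneg a⁻¹, mul_nonneg_of_nonpos_of_nonpos (Mathlib.Tactic.Linarith.sub_nonpos_of_le hi) (Mathlib.Tactic.Linarith.sub_nonpos_of_le (abs_nonneg a⁻¹))]
      have h2 : |b| * |a⁻¹| * |a⁻¹| ≤ 4 * K := by
        rw [mul_assoc]; linarith only [hb, hK, h1, abs_nonneg b, mul_nonneg (abs_nonneg a⁻¹) (abs_nonneg a⁻¹), mul_nonneg_of_nonpos_of_nonpos (Mathlib.Tactic.Linarith.sub_nonpos_of_le (mul_self_nonneg ((1 : ℝ) * |a⁻¹|))) (Mathlib.Tactic.Linarith.sub_nonpos_of_le hb), mul_nonneg_of_nonpos_of_nonpos (Mathlib.Tactic.Linarith.sub_nonpos_of_le hK) (Mathlib.Tactic.Linarith.sub_nonpos_of_le h1)]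
      linarith only [hK, h2, norm_Sop, norm_nonneg Sop,
        mul_nonneg (mul_nonneg (abs_nonneg b) (abs_nonneg a⁻¹)) (abs_nonneg a⁻¹), mul_nonneg_of_nonpos_of_nonpos (Mathlib.Tactic.Linarith.sub_nonpos_of_le hK) (Mathlib.Tactic.Linarith.sub_nonpos_of_le norm_Sop), mul_nonneg_of_nonpos_of_nonpos (Mathlib.Tactic.Linarith.sub_nonpos_of_le h2) (Mathlib.Tactic.Linarith.sub_nonpos_of_le (norm_nonneg Sop))]
  set R := X - (a • (1 : TW →L[ℝ] TW) + b • Sop) with hR
  have hn : ‖-(G * R)‖ < 1 := by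
    rw [norm_neg]
    refine (norm_mul_le _ _).trans_lt (lt_of_le_of_lt ?_ h)
    rw [mul_comm]
    exact mul_le_mul_of_nonneg_left hGn (norm_nonneg _)
  refine ⟨(Units.oneSub _ hn).inv * G, ?_⟩
  have e : G * X = (Units.oneSub _ hn).val := by
    rw [Units.val_oneSub, hR, mul_sub, hG]; abel
  rw [mul_assoc, e]
  exact (Units.oneSub _ hn).inv_val

theorem pfp (T : TW →L[ℝ] TW) :
    (∃ U V : TW →L[ℝ] TW, U * T * V = 1) ∨ (∃ U V : TW →L[ℝ] TW, U * (1 - T) * V = 1) := by
  have hT := norm_nonneg T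
  set δ := 1 / (8 * (2 + 4 * (3 * ‖T‖))) with hδ
  have hδ0 : 0 < δ := by positivity
  obtain ⟨φ, hφ, a, b, hb, f1, f2⟩ := diag T δ hδ0
  set R := Uop φ hφ * T * Vop φ hφ - (a • (1 : TW →L[ℝ] TW) + b • Sop) with hR
  have hRn : ‖R‖ ≤ 4 * δ := by
    refine opNorm_le_of_sing R _ fun m => ?_
    have g := geom_le id Function.injective_id m δ hδ0.le
    have : ∑ i ∈ range m, (‖R (sing i (1, 0))‖ + ‖R (sing i (0, 1))‖) ≤
        ∑ i ∈ range m, (δ * (1 / 2) ^ i + δ * (1 / 2) ^ i) := by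
      refine sum_le_sum fun i _ => add_le_add ?_ ?_
      · refine le_trans (le_of_eq ?_) (f1 i)
        congr 1
        simp only [hR, mul_apply_eq_comp, sub_apply, add_apply, smul_apply,
          one_apply_eq_self, Sop_sing, ← sing_smul, ← sing_add]
        simp
      · refine le_trans (le_of_eq ?_) (f2 i)
        congr 1
        simp only [hR, mul_apply_eq_comp, sub_apply, add_apply, smul_apply,
          one_apply_eq_self, Sop_sing, ← sing_smul, ← sing_add]
        simp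
    refine this.trans ?_
    rw [sum_add_distrib]
    simp only [id] at g
    linarith only [g]
  have hlt : ‖R‖ * (2 + 4 * (3 * ‖T‖)) < 1 := by
    have : 4 * δ * (2 + 4 * (3 * ‖T‖)) = 1 / 2 := by rw [hδ]; field_simp; ring
    linarith only [hδ0, hRn, this, hT, mul_nonneg_of_nonpos_of_nonpos (Mathlib.Tactic.Linarith.sub_nonpos_of_le hT) (le_of_lt (Mathlib.Tactic.Linarith.sub_neg_of_lt hδ0)), mul_nonneg_of_nonpos_of_nonpos (Mathlib.Tactic.Linarith.sub_nonpos_of_le hT) (Mathlib.Tactic.Linarith.sub_nonpos_of_le hRn)]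
  by_cases ha : 1 / 2 ≤ |a|
  · obtain ⟨W, hW⟩ := factor_of_close _ a b _ ha hb hlt
    exact Or.inl ⟨W * Uop φ hφ, Vop φ hφ, by simpa only [mul_assoc] using hW⟩
  · have ha' : 1 / 2 ≤ |1 - a| := by
      have := abs_lt.1 (not_le.1 ha)
      rw [le_abs]; left; linarith only [this]
    have hUV : Uop φ hφ * Vop φ hφ = 1 := by
      ext1 z; exact Uop_Vop φ hφ z
    obtain ⟨W, hW⟩ := factor_of_close (Uop φ hφ * (1 - T) * Vop φ hφ) (1 - a) (-b) (3 * ‖T‖) ha'
      (by rwa [abs_neg]) (by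
        have : Uop φ hφ * (1 - T) * Vop φ hφ - ((1 - a) • (1 : TW →L[ℝ] TW) + -b • Sop) = -R := by
          rw [hR, mul_sub, sub_mul, mul_one, hUV, sub_smul, one_smul, neg_smul]; abel
        rwa [this, norm_neg])
    exact Or.inr ⟨W * Uop φ hφ, Vop φ hφ, by simpa only [mul_assoc] using hW⟩

theorem not_upfp (C : ℝ) (hC : 1 ≤ C) : ∃ T : TW →L[ℝ] TW, ∀ U V : TW →L[ℝ] TW,
    ‖U‖ * ‖V‖ ≤ C → U * T * V ≠ 1 ∧ U * (1 - T) * V ≠ 1 := by
  set n : ℝ := 7 * C with hn
  have hn1 : 1 ≤ n := by linarith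
  refine ⟨n • Sop, fun U V hUV => ?_⟩
  obtain ⟨φ, hφ, hnd⟩ := near_disj V
  let Q : TW →L[ℝ] TW := Uop φ hφ * U * Sop * V * Vop φ hφ
  set δ : ℝ := 1 / (2 * n) with hδ
  have hδ0 : 0 < δ := by positivity
  have hδ1 : δ ≤ 1 / 2 := by
    rw [hδ]; exact one_div_le_one_div_of_le (by norm_num) (by linarith)
  obtain ⟨ψ, hψ, a, b, -, f1, f2⟩ := diag Q δ hδ0
  let U' : TW →L[ℝ] TW := Uop ψ hψ * Uop φ hφ * U
  let V' : TW →L[ℝ] TW := V * Vop φ hφ * Vop ψ hψ
  have u0 := norm_nonneg U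
  have v0 := norm_nonneg V
  have hU' : ∀ z, ‖U' z‖ ≤ ‖U‖ * ‖z‖ := fun z =>
    (Uop_le ψ hψ _).trans ((Uop_le φ hφ _).trans (U.le_opNorm z))
  have hV' : ∀ z, ‖V' z‖ ≤ ‖V‖ * ‖z‖ := fun z => (V.le_opNorm _).trans
    (mul_le_mul_of_nonneg_left ((Vop_le φ hφ _).trans (Vop_le ψ hψ _)) v0)
  let Q' : TW →L[ℝ] TW := U' * Sop * V'
  have g1 : ∀ k, ‖Q' (sing k (1, 0)) - sing k (a, 0)‖ ≤ δ * (1 / 2) ^ k := f1
  have g2 : ∀ k, ‖Q' (sing k (0, 1)) - sing k (b, a)‖ ≤ δ * (1 / 2) ^ k := f2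
  have nd : ∀ N, 0 < N → ∀ v ∈ ({(1, 0), (0, 1)} : Set (ℝ × ℝ)),
      ‖V' (cst N v) - log N • Sop (V' (cst N v))‖ ≤ 18 * ‖V‖ * √N + 2 * (1 + log N) :=
    hnd ψ hψ
  have ha : a = 0 := coef_zero 0 a (‖U‖ * (36 * ‖V‖)) (2 * ‖U‖ + 2 * δ) fun N hN => by
    have l0 : 0 ≤ log (N : ℝ) := log_nonneg (by exact_mod_cast hN)
    have s1 := mul_le_mul_of_nonneg_left (sum_err Q' _ _ δ hδ0.le g1 N) l0
    have s2 := cst_lower N hN (log N • (a, 0))
    have s3 := nd N hN (1, 0) (by simp)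
    have s4 := (hV' (cst N (1, 0))).trans (mul_le_mul_of_nonneg_left (norm_cst_f N) v0)
    have s5 := norm_sub_le (V' (cst N (1, 0)))
      (V' (cst N (1, 0)) - log N • Sop (V' (cst N (1, 0))))
    rw [sub_sub_cancel] at s5
    have s6 := hU' (log N • Sop (V' (cst N (1, 0))))
    have s7 : ‖U‖ * ‖log N • Sop (V' (cst N (1, 0)))‖ ≤
        ‖U‖ * (36 * ‖V‖ * √N + 2 * (1 + log N)) := mul_le_mul_of_nonneg_left (by linarith only [s3, s4, s5]) u0
    have e : cst N (log N • (a, 0)) = U' (log N • Sop (V' (cst N (1, 0)))) -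
        log N • (Q' (cst N (1, 0)) - cst N (a, 0)) := by
      rw [cst_smul, map_smul, smul_sub]
      simp only [Q', mul_apply_eq_comp]
      abel
    have s8 := norm_sub_le (U' (log N • Sop (V' (cst N (1, 0)))))
      (log N • (Q' (cst N (1, 0)) - cst N (a, 0)))
    rw [← e, norm_smul, Real.norm_eq_abs, abs_of_nonneg l0] at s8
    simp only [Prod.smul_fst, Prod.smul_snd, smul_eq_mul, mul_zero, add_zero] at s2
    rw [zero_add]
    linarith only [s1, s2, s6, s7, s8, hδ0]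
  subst ha
  have hid : ∀ X : TW →L[ℝ] TW, U * X * V = 1 → ∀ z, U' (X (V' z)) = z := by
    intro X hX z
    have : ∀ y, U (X (V y)) = y := fun y => congrArg (fun F : TW →L[ℝ] TW => F y) hX
    simp only [U', V', mul_apply_eq_comp, this, Uop_Vop]
  constructor
  · intro h
    have h1 := hid _ h (sing 0 (1, 0))
    have h2 : Q' (sing 0 (1, 0)) = n⁻¹ • sing 0 (1, 0) := by
      rw [smul_apply, map_smul] at h1
      rw [← h1, smul_smul, inv_mul_cancel₀ (by linarith only [hC, hδ0, hδ1]), one_smul]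
      simp only [Q', mul_apply_eq_comp]
      rw [h1]
    have h3 := (coord_le _ 0).trans (g1 0)
    rw [h2, ← sing_smul, ← sing_sub, sing_val, Pi.single_eq_same] at h3
    simp only [Prod.smul_mk, smul_eq_mul, mul_one, mul_zero, Prod.mk_sub_mk, sub_zero, abs_zero,
      add_zero, pow_zero] at h3
    rw [abs_of_pos (by positivity), hδ, ← one_div] at h3
    have := (one_div_le_one_div (by linarith only [hC, hδ0, hδ1]) (by linarith only [hC, hδ0, hδ1])).1 h3
    linarith only [hC, hδ0, hδ1, this]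
  · intro h
    have h1 : ∀ z, U' (V' z) = z + n • Q' z := by
      intro z
      have := hid _ h z
      rw [sub_apply, one_apply_eq_self, smul_apply, map_sub, map_smul] at this
      simp only [Q', mul_apply_eq_comp]
      rw [← sub_eq_iff_eq_add, this]
    have hb : b - 1 = 0 := coef_zero 0 (b - 1) (‖U‖ * (36 * ‖V‖))
        (2 * ‖U‖ + 2 * δ + n * (2 * δ)) fun N hN => by
      have l0 : 0 ≤ log (N : ℝ) := log_nonneg (by exact_mod_cast hN)
      have s0 := sum_err Q' _ _ δ hδ0.le g1 N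
      have z0 : cst N (0, 0) = 0 := by
        rw [show (((0 : ℝ), (0 : ℝ)) : ℝ × ℝ) = (0 : ℝ) • (0, 0) by simp, cst_smul, zero_smul]
      rw [z0, sub_zero] at s0
      have s0' := mul_le_mul_of_nonneg_left (mul_le_mul_of_nonneg_left s0 (by linarith only [hC, hδ0, hδ1] : 0 ≤ n)) l0
      have s1 := mul_le_mul_of_nonneg_left (sum_err Q' _ _ δ hδ0.le g2 N) l0
      have s2 := cst_lower N hN (log N • ((b, 0) - (1, 0)))
      have s3 := nd N hN (0, 1) (by simp)
      have s4 := (hV' _).trans (mul_le_mul_of_nonneg_left (norm_cst_g N) v0)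
      set y1 := V' (cst N (0, 1) - log N • cst N (1, 0)) with hy1
      set y2 := V' (cst N (0, 1)) - log N • Sop (V' (cst N (0, 1))) with hy2
      have s5 := norm_sub_le y1 y2
      have s6 := hU' (y1 - y2)
      have s7 : ‖U‖ * ‖y1 - y2‖ ≤ ‖U‖ * (36 * ‖V‖ * √N + 2 * (1 + log N)) :=
        mul_le_mul_of_nonneg_left (by linarith only [s4, s3, s5]) u0
      have e : cst N (log N • ((b, 0) - (1, 0))) = U' (y1 - y2) -
          log N • (Q' (cst N (0, 1)) - cst N (b, 0)) + log N • n • Q' (cst N (1, 0)) := by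
        rw [cst_smul, cst_sub, hy1, hy2]
        simp only [map_sub, map_smul, h1]
        simp only [Q', mul_apply_eq_comp]
        module
      have s8 := norm_add_le (U' (y1 - y2) - log N • (Q' (cst N (0, 1)) - cst N (b, 0)))
        (log N • n • Q' (cst N (1, 0)))
      have s9 := norm_sub_le (U' (y1 - y2)) (log N • (Q' (cst N (0, 1)) - cst N (b, 0)))
      rw [← e, norm_smul, norm_smul, Real.norm_eq_abs, Real.norm_eq_abs, abs_of_nonneg l0,
        abs_of_nonneg (by linarith only [hC, hδ0, hδ1] : 0 ≤ n)] at s8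
      rw [norm_smul, Real.norm_eq_abs, abs_of_nonneg l0] at s9
      simp only [Prod.smul_fst, Prod.smul_snd, Prod.fst_sub, Prod.snd_sub, smul_eq_mul, mul_zero,
        add_zero, sub_zero] at s2
      rw [zero_add]
      have : 0 ≤ n * (2 * δ) := by positivity
      linarith only [s0', s1, s2, s6, s7, s8, s9, hδ0, this]
    have hb1 : b = 1 := by linarith only [hb]
    subst hb1
    have g3 : ‖sing 0 (0, 1)‖ ≤ 3 := by simpa using norm_sing_le 0 (0, 1)
    have c1 := (coord_le _ 0).trans (g2 0)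
    have c2 := (coord_le _ 0).trans ((hU' _).trans (mul_le_mul_of_nonneg_left
      ((hV' (sing 0 (0, 1))).trans (mul_le_mul_of_nonneg_left g3 v0)) u0))
    rw [h1] at c2
    simp only [TW.val_add, TW.val_sub, TW.val_smul, Pi.add_apply, Pi.sub_apply, Pi.smul_apply,
      sing_val, Pi.single_eq_same, Prod.fst_add, Prod.fst_sub, Prod.smul_fst, smul_eq_mul,
      zero_add, pow_zero, mul_one] at c1 c2
    set x := ((Q' (sing 0 (0, 1))).val 0).1 with hx
    have c3 : |x - 1| ≤ 1 / 2 := by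
      linarith only [hδ1, c1, abs_nonneg ((Q' (sing 0 (0, 1))).val 0 - (1, 0)).2]
    have c4 : |n * x| ≤ 3 * C := by
      linarith only [hUV, c2, abs_nonneg ((0, 1) + n • (Q' (sing 0 (0, 1))).val 0).2]
    have c5 := abs_le.1 c3
    have c6 := le_abs_self (n * x)
    linarith only [hC, hδ0, hδ1, c4, c5, c6, mul_nonneg_of_nonpos_of_nonpos (Mathlib.Tactic.Linarith.sub_nonpos_of_le hC) (Mathlib.Tactic.Linarith.sub_nonpos_of_le c5.left)]

end Pool.Agent.Work.MP_1001d8_an
end
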